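import Pool.Agent.H37.CTR.Stmts

set_option autoImplicit false

namespace Pool.CND

/-- in a finite group `Q`: `|V| |Z(Q)|` divides `|Q| |V ∩ Z(Q)|` -/
theorem SQPaux.one {Q : Type} [Group Q] [Finite Q] (V : Subgroup Q) :
    Nat.card V * Nat.card (Subgroup.center Q) ∣
      Nat.card Q * Nat.card (V ⊓ Subgroup.center Q : Subgroup Q) := by
  have h1 : (Subgroup.center Q).relIndex (V ⊔ Subgroup.center Q) =
      (Subgroup.center Q).relIndex V := Subgroup.relIndex_sup_right V (Subgroup.center Q)
  have h2 : (Subgroup.center Q).relIndex (V ⊔ Subgroup.center Q) * Nat.card (Subgroup.center Q)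
      = Nat.card (V ⊔ Subgroup.center Q : Subgroup Q) := by
    have := Subgroup.relIndex_mul_relIndex (⊥ : Subgroup Q) (Subgroup.center Q)
      (V ⊔ Subgroup.center Q) bot_le le_sup_right
    rw [Subgroup.relIndex_bot_left, Subgroup.relIndex_bot_left] at this
    rw [mul_comm]; exact this
  have h3 : (Subgroup.center Q).relIndex V *
      Nat.card (V ⊓ Subgroup.center Q : Subgroup Q) = Nat.card V := by
    have := Subgroup.relIndex_mul_relIndex (⊥ : Subgroup Q) (V ⊓ Subgroup.center Q)
      V bot_le inf_le_left
    rw [Subgroup.relIndex_bot_left, Subgroup.relIndex_bot_left,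
      Subgroup.inf_relIndex_left] at this
    rw [mul_comm]; exact this
  have h4 : Nat.card V * Nat.card (Subgroup.center Q) =
      Nat.card (V ⊔ Subgroup.center Q : Subgroup Q) *
        Nat.card (V ⊓ Subgroup.center Q : Subgroup Q) := by
    rw [← h2, ← h3, h1]; ring
  rw [h4]
  exact Nat.mul_dvd_mul (Subgroup.card_subgroup_dvd_card _) (dvd_refl _)

theorem SQPaux.congr {A B : Type} [Group A] [Group B] [Finite A] [Finite B] (e : A ≃* B) :
    Nat.card (Subgroup.center A) ∣ Nat.card (Subgroup.center B) := by
  let f : Subgroup.center A →* Subgroup.center B :=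
    (e.toMonoidHom.comp (Subgroup.center A).subtype).codRestrict (Subgroup.center B) (by
      intro x
      rw [Subgroup.mem_center_iff]
      intro g
      obtain ⟨a, rfl⟩ := e.surjective g
      have := (Subgroup.mem_center_iff.mp x.2) a
      simpa using congrArg e this)
  refine Subgroup.card_dvd_of_injective f ?_
  intro x y hxy
  have : e x.1 = e y.1 := congrArg Subtype.val hxy
  exact Subtype.ext (e.injective this)

theorem sqp_thm : S_SQP := by
  intro p n G _ _ P W hp hW
  haveI : Fact p.Prime := ⟨hp⟩
  obtain ⟨Q, hQ⟩ := (IsPGroup.of_card hW).exists_le_sylow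
  have e : P ≃* Q := P.equiv Q
  have hc : Nat.card P = Nat.card Q := Nat.card_congr e.toEquiv
  have hz : Nat.card (Subgroup.center P) ∣ Nat.card (Subgroup.center Q) := SQPaux.congr e
  have h1 := SQPaux.one (W.subgroupOf (Q : Subgroup G))
  have hV : Nat.card (W.subgroupOf (Q : Subgroup G)) = Nat.card W :=
    Nat.card_congr (Subgroup.subgroupOfEquivOfLe hQ).toEquiv
  have h2 : Nat.card (W.subgroupOf (Q : Subgroup G) ⊓
      Subgroup.center (Q : Subgroup G) : Subgroup (Q : Subgroup G)) ∣
      Nat.card (Subgroup.center W) := by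
    let f : (W.subgroupOf (Q : Subgroup G) ⊓
        Subgroup.center (Q : Subgroup G) : Subgroup (Q : Subgroup G)) →* Subgroup.center W :=
      { toFun := fun x => ⟨⟨x.1.1, x.2.1⟩, by
          rw [Subgroup.mem_center_iff]
          intro g
          have := (Subgroup.mem_center_iff.mp x.2.2) ⟨g.1, hQ g.2⟩
          have h := congrArg Subtype.val this
          exact Subtype.ext h⟩
        map_one' := rfl
        map_mul' := fun _ _ => rfl }
    refine Subgroup.card_dvd_of_injective f ?_
    intro x y hxy
    have : x.1.1 = y.1.1 := congrArg (fun t : Subgroup.center W => t.1.1) hxy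
    exact Subtype.ext (Subtype.ext this)
  rw [hV] at h1
  have h3 : Nat.card W * Nat.card (Subgroup.center P) ∣
      Nat.card W * Nat.card (Subgroup.center (Q : Subgroup G)) := Nat.mul_dvd_mul (dvd_refl _) hz
  have h4 : Nat.card (Q : Subgroup G) * Nat.card (W.subgroupOf (Q : Subgroup G) ⊓
      Subgroup.center (Q : Subgroup G) : Subgroup (Q : Subgroup G)) ∣
      Nat.card P * Nat.card (Subgroup.center W) := by
    have hc' : Nat.card P = Nat.card (Q : Subgroup G) := hc
    rw [hc']
    exact Nat.mul_dvd_mul (dvd_refl _) h2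
  exact h3.trans (h1.trans h4)

end Pool.CND
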